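import Pool.Agent.X324.CG.Num

set_option autoImplicit false

/-!
# `Nef^+ = Nef^e` for `(A × F) / G`: reduction to the factors of the Beauville–Bogomolov decomposition

A smooth projective variety `Y` with `K_Y ≡ 0` is of the form `Y = (A × F) / G`, where `A = V / Λ` is an
abelian variety, `F = ∏ F i` is a simply connected product of irreducible holomorphic symplectic and of
strict Calabi–Yau manifolds, and `G` is a finite group which acts on both factors. The theorem says: if
`Nef^+(F i) ⊆ Nef^e(F i)` for all `i` then `Nef^+(Y) ⊆ Nef^e(Y)`; and if `Nef^+(F i) = Nef^e(F i)` for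
all `i` then `Nef^+(Y) = Nef^e(Y)`. No form of the cone conjecture and nothing about automorphisms is
assumed. So the question is reduced to strict Calabi–Yau manifolds. The theorem holds for all
projective quotients `X = (A × F) / G`, where `F` is a product of normal projective `ℚ`-factorial
varieties with free class group; `X` may be singular, the action of `G` may have fixed points, the
elements of `G` may permute the factors, and there is no condition on the canonical class.

The proof: `N^1(X)` is the product of a space of hermitian forms on `V` and of the space of the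
`G`-invariant classes of `F`. Rational semidefinite forms are classes of effective divisors (theta
functions). An integral nef class of `F` has integral nef components on the `F i`, these are effective,
and norms of sections show that invariant effective classes of `F` are effective on `X`.

`Cl`, `Grp`, `IsQuotient`, `Sheaf`, `N1`, `integral`, `nefCone` and `effCone` are defined in
`Pool.Agent.X324.CF.Defs`; `IsCoxRing`, `IsProduct`, `real`, `nefF` and `effF` in
`Pool.Agent.X324.CG.Defs`; `IsTorusQuotient` in `Pool.Agent.W594.SYZ.Defs2`; `IsPositiveForm` in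
`Pool.Agent.W594.SYZ.TQDefs`.
-/

namespace Pool.Agent.Results.MP_a76943_ag.ProductQuotients

open Pool.Agent.W594.SYZ2 Pool.Agent.TH735.AQ Pool.Agent.X324.CF
open Pool.Agent.X324.CG (IsCoxRing IsProduct real nefF effF)

section F

variable {R κ : Type*} [CommRing R] [Algebra ℂ R] {ρ : ℕ} (𝒜 : Cl ρ → Submodule ℂ R)

/-- `Nef^e(F i)`: the nef and effective classes of the factor `F i`. -/
def nefEffF (u : Cl ρ) (c : Fin ρ → κ) (i : κ) : Set (Fin ρ → ℝ) := nefF 𝒜 u c i ∩ effF 𝒜 c i

/-- `Nef^+(F i)`: the convex hull of the rational nef classes of the factor `F i`. -/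
def nefPlusF (u : Cl ρ) (c : Fin ρ → κ) (i : κ) : Set (Fin ρ → ℝ) :=
  convexHull ℝ (nefF 𝒜 u c i ∩ {b | ∃ n : ℕ, 0 < n ∧ ∃ β : Cl ρ, (n : ℝ) • b = real β})

end F

section X

variable {V R : Type*} [NormedAddCommGroup V] [NormedSpace ℂ V] [CommRing R] [Algebra ℂ R] {ρ : ℕ}
  (𝒜 : Cl ρ → Submodule ℂ R) (Γ : Grp V R)

/-- The space `N^1(X)`. (In the absolute case the linear subspace `E` of `V` of the general
definitions is `V` itself, embedded by the identity map.) -/
abbrev NS : Type _ := N1 𝒜 Γ (LinearMap.id : V →ₗ[ℂ] V)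

/-- `Nef^e(X)`: the nef and effective classes of `X`. -/
def nefEff (u : Cl ρ) : Set (NS 𝒜 Γ) :=
  nefCone 𝒜 Γ LinearMap.id u ∩ effCone 𝒜 Γ LinearMap.id

/-- The rational classes: those which have a positive integral multiple. -/
def rational : Set (NS 𝒜 Γ) := {x | ∃ n : ℕ, 0 < n ∧ (n : ℝ) • x ∈ integral 𝒜 Γ LinearMap.id}

/-- `Nef^+(X)`: the convex hull of the rational nef classes of `X`. -/
def nefPlus (u : Cl ρ) : Set (NS 𝒜 Γ) :=
  convexHull ℝ (nefCone 𝒜 Γ LinearMap.id u ∩ rational 𝒜 Γ)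

end X

/-- Let `F` be the product of varieties `F i`, and let `X = (V × F) / Γ` be a projective quotient. If
`Nef^+(F i) ⊆ Nef^e(F i)` for all `i` then `Nef^+(X) ⊆ Nef^e(X)`; if `Nef^+(F i) = Nef^e(F i)` for all
`i` then `Nef^+(X) = Nef^e(X)`. -/
theorem result {V R κ : Type*} [NormedAddCommGroup V] [NormedSpace ℂ V] [FiniteDimensional ℂ V]
    [CommRing R] [IsDomain R] [Algebra ℂ R] [DecidableEq κ] [Fintype κ] {ρ : ℕ}
    (𝒜 : Cl ρ → Submodule ℂ R) [GradedAlgebra 𝒜] (u : Cl ρ) (hF : IsCoxRing 𝒜 u)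
    (c : Fin ρ → κ) (hprod : IsProduct 𝒜 c) (Γ : Grp V R) (hX : IsQuotient 𝒜 u Γ)
    (hproj : ∃ (L : Sheaf 𝒜 Γ) (H : V → V → ℂ), L.IsChern H ∧ IsPositiveForm H) :
    ((∀ i, nefPlusF 𝒜 u c i ⊆ nefEffF 𝒜 u c i) → nefPlus 𝒜 Γ u ⊆ nefEff 𝒜 Γ u) ∧
    ((∀ i, nefPlusF 𝒜 u c i = nefEffF 𝒜 u c i) → nefPlus 𝒜 Γ u = nefEff 𝒜 Γ u) := by
  obtain ⟨H₀, Rl⟩ := rel_id hX hproj
  obtain ⟨d, D⟩ := hF.sys_nef (𝒮 := gal Γ) fun _ h => Pool.Agent.X324.CG.gal_aut hX h
  have hle : Pool.Agent.X324.CG.LG 𝒜 Γ ≤ (⊤ : AddSubgroup (Cl ρ)) := le_top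
  have key : (∀ i, nefPlusF 𝒜 u c i ⊆ nefEffF 𝒜 u c i) → ∀ β : Cl ρ,
      rv β ∈ Pool.Agent.X324.CG.KQ {β | SemiampleF 𝒜 u β} ⊤ →
      rv β ∈ Pool.Agent.X324.CG.EQ 𝒜 ⊤ := by
    intro h β hβ
    refine Pool.Agent.X324.CG.int_nef_eff (u := u) hprod (fun i => ?_) hβ
    refine hull_le fun b hb => ?_
    refine (h i (subset_convexHull ℝ _ ⟨hb.1, 1, one_pos, ?_⟩)).2
    obtain ⟨β, hβ⟩ := hb.2
    exact ⟨β, by rw [Nat.cast_one, one_smul, hβ]⟩
  refine ⟨fun h => ?_, fun h => ?_⟩
  · refine Pool.Agent.X324.CG.plus_sub D hX (fun β hβ hb => ?_) Rl (hF.good_nef hX D.base)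
    have hbB : rv β ∈ Bs 𝒜 Γ := Submodule.subset_span ⟨β, hβ, rfl⟩
    exact Pool.Agent.X324.CG.EQ_inter D hX (key h β (Pool.Agent.X324.CG.KQ_le hle hb)) hbB
  · have hkey := key fun i => (h i).subset
    have hcp : ∀ b, b ∈ Pool.Agent.X324.CG.KQ {β | SemiampleF 𝒜 u β} ⊤ ∧
        b ∈ Pool.Agent.X324.CG.EQ 𝒜 ⊤ ↔
        b ∈ Pool.Agent.Y167.Cp (ZL ρ)
          (Pool.Agent.X324.CG.KQ {β | SemiampleF 𝒜 u β} ⊤) := by
      intro b
      constructor
      · rintro ⟨h1, h2⟩
        rw [← Pool.Agent.X324.CG.sum_partR (c := c) b]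
        have hpart : ∀ i, Pool.Agent.X324.CG.partR c i b ∈
            coneHull {a | a ∈ ZL ρ ∧
              a ∈ Pool.Agent.X324.CG.KQ {β | SemiampleF 𝒜 u β} ⊤} := by
          intro i
          have h3 : Pool.Agent.X324.CG.partR c i b ∈ nefF 𝒜 u c i :=
            Pool.Agent.X324.CG.part_KQ (𝒬 := {β | SemiampleF 𝒜 u β})
              (fun i β h => hprod.semi i h) i h1
          have h4 : Pool.Agent.X324.CG.partR c i b ∈ effF 𝒜 c i :=
            Pool.Agent.X324.CG.part_EQ (fun i β h => hprod.eff i β h) i h2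
          have h5 : Pool.Agent.X324.CG.partR c i b ∈ nefPlusF 𝒜 u c i := by
            rw [h i]
            exact ⟨h3, h4⟩
          have h6 := cp_eq_convexHull (L := ZL ρ) (K := nefF 𝒜 u c i)
            (subset_closure hull_zero)
            (fun t ht a ha => Pool.Agent.X324.CG.cl_smul ht ha)
          have h7 : nefPlusF 𝒜 u c i = convexHull ℝ (nefF 𝒜 u c i ∩
              {x | ∃ n : ℕ, 0 < n ∧ (n : ℝ) • x ∈ ZL ρ}) := rfl
          rw [h7, ← h6] at h5
          obtain ⟨S, hS, h8⟩ := h5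
          refine hull_of_cone (fun a ha => hull_mem ?_) h8
          exact ⟨(hS a ha).1, Pool.Agent.X324.CG.nefF_sub i (hS a ha).2⟩
        exact Finset.sum_induction _ (fun a => a ∈ coneHull {a | a ∈ ZL ρ ∧
              a ∈ Pool.Agent.X324.CG.KQ {β | SemiampleF 𝒜 u β} ⊤})
          (fun _ _ h1 h2 => hull_add h1 h2) hull_zero fun i _ => hpart i
      · rintro ⟨S, hS, hb⟩
        refine ⟨Pool.Agent.X324.CG.cone_KQ (fun a ha => (hS a ha).2) hb,
          Pool.Agent.X324.CG.cone_EQ (fun a ha => ?_) hb⟩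
        obtain ⟨⟨β, hβ⟩, h2⟩ := hS a ha
        rw [hβ] at h2 ⊢
        exact hkey β h2
    have hPF := Pool.Agent.X324.CG.plusF_of D hX le_rfl hcp
    exact (Pool.Agent.X324.CG.plus2 D hX hPF Rl (hF.good_nef hX D.base)).symm

end Pool.Agent.Results.MP_a76943_ag.ProductQuotients
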